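import Pool.Agent.U513.AP.Primes

/-!
# The number of primes in Oppermann's intervals at the numerators and denominators of Diophantine approximations

Let `α ∈ ℝ ^ d` and consider all its approximations `(k, p_1, …, p_d)` with `|k α_i - γ_i - p_i| ≤ k ^ (-τ)`; for `d = 1`, `γ = 0`,
`τ = 1` these contain the denominators and numerators of all the convergents of the continued fraction of `α`, for `τ = 1 / d` all
the best simultaneous approximations. We show that for all `α` outside of a set of Hausdorff dimension at most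
`(d + 0.612 + w - δ) / (1 + τ)` the numbers `A(n)` and `B(n)` of primes in `[n ^ 2 - n, n ^ 2]` and `[n ^ 2, n ^ 2 + n]` are at least
`c (n / (2 log n))` for ALL the integers `n ≥ 1` at a distance of at most `k ^ w` from
`a k + b_1 p_1 + ⋯ + b_d p_d`, for every integral linear form `(a, b) ≠ 0` and all these approximations with large `k`; moreover
every interval of length `H ≥ n ^ (1 - δ)` in `[n ^ 2 - n, n ^ 2 + n]` contains at least `c H / log n` primes. For
`d = 1`, `τ = 1` the dimension is at most `(1.612 + w - δ) / 2 < 1` for `w ≤ 0.388`. The theorem is more general: linear forms are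
replaced by all the integral polynomials `P(k, p)` of degree at most `D` with small level sets, with the dimension
`(d + 1 - l + 0.612 D + w - δ) / (1 + τ)`, for example `k ^ 2 + p_1 ^ 2 + Q(p_2, …)` with `l = D = 2`, so that for `d = 1`, `τ = 1` all the
integers `n` within `k ^ w` of `k ^ 2 + p ^ 2` are covered, with dimension `(1.224 + w - δ) / 2`. All the `α` with approximations of
exponent `τ > 1 / d` form a set of dimension `(d + 1) / (1 + τ)`, so that the theorem is new information also for large `τ`.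

Proof. `Pool/Agent/Q278/KT` of the starting library (prepared for another question) bounds the number of the exceptional `n ≤ X` by
`X ^ (0.612 - δ)` (`S821/PowIdx` of helper821, form of helper766 in `U766/OP/Core`). The integral vectors `(k, p)` with `k ≈ N` and
`P(k, p)` near the exceptional set are counted with the level sets of `P` (`U513/AP/Core`), and the sets of the `α` approximated
by them, cubes of side `2 N ^ (- 1 - τ)`, are used as the covers in the definition of the Hausdorff measure. The numbers `k`, `p` have the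
density zero for a given `α`, so that a bound for the number of exceptional `n` alone does not say anything about them.
-/

set_option autoImplicit false

open Finset Filter MeasureTheory

namespace Pool.Agent.Results.MP_a8fbd7_nt.Approximations

/-- `A n`: the number of the primes `p` with `n ^ 2 - n ≤ p ≤ n ^ 2`. -/
noncomputable def A (n : ℕ) : ℕ := {p : ℕ | p.Prime ∧ n ^ 2 - n ≤ p ∧ p ≤ n ^ 2}.ncard

/-- `B n`: the number of the primes `p` with `n ^ 2 ≤ p ≤ n ^ 2 + n`. -/
noncomputable def B (n : ℕ) : ℕ := {p : ℕ | p.Prime ∧ n ^ 2 ≤ p ∧ p ≤ n ^ 2 + n}.ncard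

/-- Every interval `(a, a + H]` in `[n ^ 2 - n, n ^ 2 + n]` with `H ≥ n ^ (1 - δ)` contains at least `c H / log n` primes. -/
def Rich (c δ : ℝ) (n : ℕ) : Prop := ∀ a H : ℕ, n ^ 2 ≤ a + n → a + H ≤ n ^ 2 + n → (n : ℝ) ^ (1 - δ) ≤ H →
  c * H / Real.log n ≤ (((Finset.Ioc a (a + H)).filter Nat.Prime).card : ℝ)

/-- `A n` and `B n` are at least `c (n / (2 log n))`, and the shorter intervals contain many primes, `Rich c δ n`. -/
def Good (c δ : ℝ) (n : ℕ) : Prop :=
  c * (n / (2 * Real.log n)) ≤ A n ∧ c * (n / (2 * Real.log n)) ≤ B n ∧ Rich c δ n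

/-- The level sets of `P` in the boxes `|w_i| ≤ X` have at most `C X ^ (r - l + ε)` elements. -/
def SmallLevels {r : ℕ} (P : MvPolynomial (Fin r) ℤ) (l : ℝ) : Prop :=
  l ≤ r ∧ ∀ ε : ℝ, 0 < ε → ∃ C : ℝ, ∀ X : ℕ, 1 ≤ X → ∀ v : ℤ,
    ({w : Fin r → ℤ | (∀ i, |w i| ≤ X) ∧ MvPolynomial.eval w P = v}.ncard : ℝ) ≤ C * (X : ℝ) ^ (r - l + ε)

/-- the polynomial `x_0 ^ 2 + x_1 ^ 2 + Q(x_2, x_3, …)` -/
noncomputable def squaresPlus {r : ℕ} (Q : MvPolynomial (Fin r) ℤ) : MvPolynomial (Fin (r + 2)) ℤ :=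
  MvPolynomial.X 0 ^ 2 + MvPolynomial.X 1 ^ 2 + MvPolynomial.rename (fun i : Fin r => i.succ.succ) Q

/-- `(k, p)` is an approximation of `α` of exponent `τ` and shift `γ`: `|k α_i - γ_i - p_i| ≤ k ^ (-τ)` for all `i`. -/
def Approx {d : ℕ} (τ : ℝ) (γ α : Fin d → ℝ) (k : ℕ) (p : Fin d → ℤ) : Prop :=
  ∀ i, |(k : ℝ) * α i - γ i - p i| ≤ (k : ℝ) ^ (-τ)

lemma rich_of {c δ : ℝ} {n : ℕ} (h1 : Pool.Agent.S821.PowIdx.RichPow c (1 - δ) 2 3 (1 * n)) : Rich c δ n := by
  rw [one_mul] at h1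
  intro a H g1 g2 g3
  have g1' : (n : ℝ) ^ 2 ≤ a + n := by exact_mod_cast g1
  have g2' : (a : ℝ) + H ≤ (n : ℝ) ^ 2 + n := by exact_mod_cast g2
  have hH : (0 : ℝ) ≤ H := Nat.cast_nonneg _
  have hx : (0 : ℝ) ≤ n := Nat.cast_nonneg _
  refine h1 a H ?_ ?_ g3
  · rw [Real.rpow_two, show (2 : ℝ) - 1 = 1 by norm_num, Real.rpow_one, abs_le]
    constructor <;> linarith
  · rw [Real.rpow_two, show (2 : ℝ) - 1 = 1 by norm_num, Real.rpow_one, abs_le]
    constructor <;> linarith

lemma Rich.mono {c c' δ δ' : ℝ} {n : ℕ} (h : Rich c δ n) (hc : c' ≤ c) (hδ : δ' ≤ δ) (hx : 1 ≤ n) : Rich c' δ' n := by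
  intro a H h1 h2 h3
  have hx1 : (1 : ℝ) ≤ n := by exact_mod_cast hx
  refine le_trans ?_ (h a H h1 h2 ((Real.rpow_le_rpow_of_exponent_le hx1 (by linarith)).trans h3))
  have := Real.log_nonneg hx1
  gcongr

lemma counts {c δ : ℝ} {n : ℕ} (hc : 0 < c) (hδ : 0 ≤ δ) (hn : 1 ≤ n) (h : Rich c δ n) :
    c * (n / (2 * Real.log n)) ≤ A n ∧ c * (n / (2 * Real.log n)) ≤ B n := by
  have hn1 : (1 : ℝ) ≤ n := by exact_mod_cast hn
  have hnn : n ≤ n ^ 2 := by nlinarith
  have h1 : (n : ℝ) ^ (1 - δ) ≤ n := by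
    calc (n : ℝ) ^ (1 - δ) ≤ (n : ℝ) ^ (1 : ℝ) := Real.rpow_le_rpow_of_exponent_le hn1 (by linarith)
      _ = n := Real.rpow_one _
  have hlog : 0 ≤ Real.log n := Real.log_nonneg hn1
  have e : c * (n / (2 * Real.log n)) ≤ c * n / Real.log n := by
    rcases hlog.eq_or_lt with h0 | h0
    · rw [← h0]
      simp
    · rw [← mul_div_assoc]
      apply div_le_div_of_nonneg_left (by positivity) h0
      linarith
  have h2 := h (n ^ 2 - n) n (by omega) (by omega) h1
  have h3 := h (n ^ 2) n (by omega) (by omega) h1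
  rw [Nat.sub_add_cancel hnn] at h2
  constructor
  · refine (e.trans h2).trans ?_
    unfold A
    rw [← Set.ncard_coe_finset]
    refine Nat.cast_le.2 (Set.ncard_le_ncard ?_ ((Set.finite_Iic (n ^ 2)).subset fun p hp => hp.2.2))
    intro p hp
    rw [mem_coe, mem_filter, mem_Ioc] at hp
    exact ⟨hp.2, hp.1.1.le, hp.1.2⟩
  · refine (e.trans h3).trans ?_
    unfold B
    rw [← Set.ncard_coe_finset]
    refine Nat.cast_le.2 (Set.ncard_le_ncard ?_ ((Set.finite_Iic (n ^ 2 + n)).subset fun p hp => hp.2.2))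
    intro p hp
    rw [mem_coe, mem_filter, mem_Ioc] at hp
    exact ⟨hp.2, hp.1.1.le, hp.1.2⟩

/-- **The counts in Oppermann's intervals at the approximations of almost all points.** There are `c > 0` and `δ > 0` such that for all
`d ≥ 1`, `D ≥ 1`, `τ ≥ 0`, `w ≥ 0`, `l` and all `γ ∈ ℝ ^ d` there is a set `E` of Hausdorff dimension at most
`(d + 1 - l + 0.612 D + w - δ) / (1 + τ)` (of Lebesgue measure zero if `0.612 D + w + 1 ≤ l + d τ`), such that for all `α ∉ E` and all
integral polynomials `P` in `d + 1` variables of degree at most `D` with `SmallLevels P l`, for all large `k` and all integral vectors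
`p` with `|k α_i - γ_i - p_i| ≤ k ^ (-τ)`, ALL the integers `n ≥ 1` with `|n - P(k, p)| ≤ k ^ w` are good: `A(n) ≥ c (n / (2 log n))`,
`B(n) ≥ c (n / (2 log n))`, and every interval `(a, a + H]` in `[n ^ 2 - n, n ^ 2 + n]` with `H ≥ n ^ (1 - δ)` contains at least
`c H / log n` primes. All the
nonconstant polynomials, such as the linear forms, have `SmallLevels P 1`, and the polynomials
`x_0 ^ 2 + x_1 ^ 2 + Q(x_2, …)` have `SmallLevels P 2`. -/
theorem result :
    (∃ c δ : ℝ, 0 < c ∧ 0 < δ ∧ ∀ (d D : ℕ) (τ w l : ℝ) (γ : Fin d → ℝ), 1 ≤ d → 1 ≤ D → 0 ≤ τ → 0 ≤ w →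
      ∃ E : Set (Fin d → ℝ), dimH E ≤ ENNReal.ofReal ((d + 1 - l + 0.612 * D + w - δ) / (1 + τ)) ∧
        (0.612 * D + w + 1 ≤ l + d * τ → volume E = 0) ∧
        ∀ α, α ∉ E → ∀ P : MvPolynomial (Fin (d + 1)) ℤ, P.totalDegree ≤ D → SmallLevels P l →
          ∀ᶠ k : ℕ in atTop, ∀ p : Fin d → ℤ, Approx τ γ α k p → ∀ n : ℕ, 1 ≤ n →
            |(n : ℝ) - (MvPolynomial.eval (Fin.cons (k : ℤ) p : Fin (d + 1) → ℤ) P : ℤ)| ≤ (k : ℝ) ^ w →
              Good c δ n) ∧
    (∀ (r : ℕ) (P : MvPolynomial (Fin r) ℤ), (∀ c : ℤ, P ≠ MvPolynomial.C c) → SmallLevels P 1) ∧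
    ∀ (r : ℕ) (Q : MvPolynomial (Fin r) ℤ), SmallLevels (squaresPlus Q) 2 := by
  refine ⟨?_, fun r P hP => Pool.Agent.U513.AP.lev_one P hP, fun r Q => Pool.Agent.U513.AP.lev_squares Q⟩
  obtain ⟨c, δ, hc, hδ, hδ1, h⟩ := Pool.Agent.U513.AP.square_law
  obtain ⟨k1, hk1⟩ : ∃ k1 : ℕ, ∀ k : ℕ, k1 ≤ k → Pool.Agent.S821.PowIdx.RichPow c (1 - δ) 2 3 (1 * k) →
      Good c (δ / 2) k := by
    refine ⟨1, fun k hk hR => ?_⟩
    have h1 := (rich_of hR).mono le_rfl (by linarith : δ / 2 ≤ δ) hk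
    have h2 := counts hc (by positivity) hk h1
    exact ⟨h2.1, h2.2, h1⟩
  refine ⟨c, δ / 2, by positivity, by positivity, fun d D τ w l γ hd hD hτ hw => ?_⟩
  obtain ⟨E, h1, h2, h3⟩ := h (Good (c) (δ / 2)) 1 k1 le_rfl hk1 d D τ w l γ hd hD hτ hw
  exact ⟨E, h1, h2, h3⟩

end Pool.Agent.Results.MP_a8fbd7_nt.Approximations
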