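import Mathlib
import Pool.Agent.U766.HO.Most
import Pool.Agent.U766.PW.WinG

/-!
# MP_a8fbd7_nt (prime counts in Oppermann intervals): the expected number of primes in short windows at common offsets

The problem asks whether the numbers of primes in `[n ^ 2 - n, n ^ 2]` and `[n ^ 2, n ^ 2 + n]` are asymptotic to
`n / (2 log n)`.  We consider the counts of primes in much shorter parts of these intervals, down to the length
`κ log n`, at the SAME offsets for all members of configurations.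

Let `S` be a set of integers with at least `N ^ 0.612` elements in `[N, 2 N]` for large `N`, let `𝓕` be a family of finite sets
such that every relatively dense subset of `S ∩ [N, 2 N]` contains a member of `𝓕` (for `S = ℕ` the progressions of length `m`,
for `S` the primes the progressions with differences at most a power of the logarithm), and let `κ > 0`, `J ≥ 0`.  Then for every
relatively dense `A ⊆ S ∩ [N, 2 N]`, all intervals `(u_i, u_i + U_i] ⊆ [-N, N]` of offsets with `U_i ≥ N ^ (1 - δ)` and all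
lengths `h_i` between `κ log N` and `U_i / 2` (`i < J`), for a positive proportion (depending on `κ` and `J` only) of all the
tuples of offsets `t_i ∈ (u_i, u_i + U_i]`, the set `A` contains a member `F` of `𝓕` such that for ALL `n ∈ F` and all `i` the
number of primes in `(n ^ 2 + t_i, n ^ 2 + t_i + h_i]` is between `c h_i / log n` and `C h_i / log n`.  Since `κ` is
arbitrarily small, this gives primes within `κ log n` of `n ^ 2 + t_i` for all `n ∈ F` and `i`.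

Method: the counting theorem for short intervals with few primes (`Pool.Agent.Q278.KT.mainp_half`) for the first moment, the
sieve upper bound for the pairs of primes and the average of the singular series for the second moment
(`Pool.Agent.U766.PW.win_gen`), then double counting over the tuples of offsets and the density theorem.
-/

set_option autoImplicit false

namespace Pool.Agent.Results.MP_a8fbd7_nt.CommonOffsets

open Filter Finset
open Pool.Agent.U766.HO (sec Thick Reg)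
open Pool.Agent.U766.OP (Rich primesIn)
open Pool.Agent.U766.PW (Win)

/-- the number of the primes `q` with `n ^ 2 + t < q ≤ n ^ 2 + t + h` -/
noncomputable def cnt (n : ℕ) (t : ℤ) (h : ℕ) : ℕ := {q : ℕ | q.Prime ∧ (n : ℤ) ^ 2 + t < q ∧ (q : ℤ) ≤ n ^ 2 + t + h}.ncard

lemma cnt_eq {n m h : ℕ} {t : ℤ} (hm : (m : ℤ) = (n : ℤ) ^ 2 + t) : cnt n t h = (primesIn m h).card := by
  classical
  unfold cnt primesIn
  rw [← Set.ncard_coe_finset]
  congr 1
  ext q
  rw [mem_coe, mem_filter, mem_Ioc]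
  show (q.Prime ∧ (n : ℤ) ^ 2 + t < q ∧ (q : ℤ) ≤ n ^ 2 + t + h) ↔ _
  rw [← hm]
  constructor
  · rintro ⟨h1, h2, h3⟩
    exact ⟨⟨by omega, by omega⟩, h1⟩
  · rintro ⟨⟨h1, h2⟩, h3⟩
    exact ⟨h3, by omega, by omega⟩

/-- **the general theorem** -/
theorem general : ∃ δ : ℝ, 0 < δ ∧ ∀ κ : ℝ, 0 < κ → ∃ c C p : ℝ, 0 < c ∧ 0 < C ∧ 0 < p ∧ ∀ (J : ℕ) (S : Set ℕ), Thick S →
    ∀ ρ : ℝ, 0 < ρ → ∀ 𝓕 : Set (Finset ℕ), Reg S (p ^ J / 4 * ρ) 𝓕 → ∃ N₀ : ℕ, ∀ N : ℕ, N₀ ≤ N → ∀ A : Finset ℕ,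
      A ⊆ sec S N → ρ * ((sec S N).card : ℝ) ≤ (A.card : ℝ) → ∀ (u : Fin J → ℤ) (U h : Fin J → ℕ),
      (∀ i, -(N : ℤ) ≤ u i ∧ u i + U i ≤ N ∧ (N : ℝ) ^ (1 - δ) ≤ U i ∧ κ * Real.log N ≤ h i ∧ 2 * h i ≤ U i) →
        ∃ T : Finset (Fin J → ℤ), T ⊆ Fintype.piFinset (fun i => Ioc (u i) (u i + U i)) ∧
          p ^ J / 2 * ∏ i, (U i : ℝ) ≤ (T.card : ℝ) ∧ ∀ t ∈ T, ∃ F ∈ 𝓕, F ⊆ A ∧ ∀ n ∈ F, ∀ i,
            c * h i / Real.log n ≤ (cnt n (t i) (h i) : ℝ) ∧ (cnt n (t i) (h i) : ℝ) ≤ C * h i / Real.log n := by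
  classical
  obtain ⟨c1, δ, hc1, hδ, hδ1, hfew⟩ := Pool.Agent.U766.OP.few Pool.Agent.Q278.KT.mainp_half
  refine ⟨δ / 2, by positivity, fun κ hκ => ?_⟩
  obtain ⟨c, C, p, hc, hC, hp, hp1, hwin⟩ := Pool.Agent.U766.PW.win_gen (κ / 4) c1 (by positivity) hc1
  refine ⟨c / 2, C, p, by positivity, hC, hp, fun J S hS ρ hρ 𝓕 hReg => ?_⟩
  obtain ⟨N1, hN1⟩ := hReg
  obtain ⟨N2, hN2⟩ := Pool.Agent.U766.HO.most c1 δ hfew 1 (by norm_num) S hS ρ hρ
  obtain ⟨X0, hX0⟩ := eventually_atTop.1 hwin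
  have hev : ∀ᶠ N : ℕ in atTop, 4 ≤ (N : ℝ) ^ (δ / 2) := by
    have t1 : Tendsto (fun N : ℕ => (N : ℝ) ^ (δ / 2)) atTop atTop :=
      (tendsto_rpow_atTop (by positivity)).comp tendsto_natCast_atTop_atTop
    exact t1.eventually_ge_atTop 4
  obtain ⟨N3, hN3⟩ := eventually_atTop.1 hev
  have hev2 : ∀ᶠ N : ℕ in atTop, 4 ≤ (N : ℝ) ^ (0.1 : ℝ) := by
    have t1 : Tendsto (fun N : ℕ => (N : ℝ) ^ (0.1 : ℝ)) atTop atTop :=
      (tendsto_rpow_atTop (by norm_num)).comp tendsto_natCast_atTop_atTop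
    exact t1.eventually_ge_atTop 4
  obtain ⟨N4, hN4⟩ := eventually_atTop.1 hev2
  refine ⟨max N1 (max N2 (max N3 (max N4 (max ⌈X0⌉₊ 16)))), fun N hN A hA hAc u U h huUh => ?_⟩
  simp only [max_le_iff] at hN
  obtain ⟨a1, a2, a3, a4, a5, a6⟩ := hN
  have hN16 : (16 : ℝ) ≤ N := by exact_mod_cast a6
  have hN0 : (0 : ℝ) < N := by linarith
  have hX0N : X0 ≤ N := (Nat.le_ceil _).trans (by exact_mod_cast a5)
  have b3 := hN3 N a3
  have b4 := hN4 N a4
  obtain ⟨A', hA'⟩ : ∃ A' : Finset ℕ, A' = A.filter (fun n => Rich c1 δ n) := ⟨_, rfl⟩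
  obtain ⟨h1, h2⟩ := hN2 N a2 A A' hA hAc (by rw [hA']; exact filter_subset _ _) (by
    intro n hn hn'
    rw [hA', mem_filter] at hn'
    rw [one_mul]
    exact fun h => hn' ⟨hn, h⟩)
  have hA'A : A' ⊆ A := by rw [hA']; exact filter_subset _ _
  -- the size of `log (n ^ 2 / 2)`
  have hlogs : ∀ n ∈ A, (N : ℝ) ≤ n ∧ (n : ℝ) ≤ 2 * N ∧ Real.log n ≤ Real.log ((n : ℝ) ^ 2 / 2) ∧
      Real.log ((n : ℝ) ^ 2 / 2) ≤ 2 * Real.log n ∧ Real.log ((n : ℝ) ^ 2 / 2) ≤ 4 * Real.log N ∧ 0 < Real.log n := by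
    intro n hn
    have h3 := Pool.Agent.U766.HO.mem_sec.1 (hA hn)
    have h4 : (N : ℝ) ≤ n := by exact_mod_cast h3.1.1
    have h5 : (n : ℝ) ≤ 2 * N := by exact_mod_cast h3.1.2
    refine ⟨h4, h5, Real.log_le_log (by linarith) (by nlinarith), ?_, ?_, Real.log_pos (by linarith)⟩
    · rw [show (2 : ℝ) * Real.log n = Real.log ((n : ℝ) ^ 2) by rw [Real.log_pow]; norm_num]
      exact Real.log_le_log (by nlinarith) (by nlinarith)
    · rw [show (4 : ℝ) * Real.log N = Real.log ((N : ℝ) ^ 4) by rw [Real.log_pow]; norm_num]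
      apply Real.log_le_log (by nlinarith)
      calc (n : ℝ) ^ 2 / 2 ≤ (2 * N) ^ 2 / 2 := by gcongr
        _ = 2 * (N : ℝ) ^ 2 := by ring
        _ ≤ (N : ℝ) ^ 2 * (N : ℝ) ^ 2 := by gcongr; nlinarith
        _ = (N : ℝ) ^ 4 := by ring
  -- the good offsets
  obtain ⟨W, hW⟩ : ∃ W : ℕ → Fin J → Finset ℤ, W = fun (n : ℕ) (i : Fin J) => (Ioc (u i) (u i + U i)).filter (fun t =>
      c / 2 * h i / Real.log n ≤ (cnt n t (h i) : ℝ) ∧ (cnt n t (h i) : ℝ) ≤ C * h i / Real.log n) := ⟨_, rfl⟩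
  have hWc : ∀ n ∈ A', ∀ i, p * U i ≤ ((W n i).card : ℝ) := by
    intro n hn i
    obtain ⟨d1, d2, d3, d4, d5, d6⟩ := hlogs n (hA'A hn)
    obtain ⟨g1, g2, g3, g4, g5⟩ := huUh i
    have hnN : N ≤ n := by exact_mod_cast d1
    have hrich : Rich c1 δ n := by
      rw [hA', mem_filter] at hn
      exact hn.2
    have hn16 : (16 : ℝ) ≤ n := by linarith
    obtain ⟨a, ha⟩ : ∃ a : ℕ, (a : ℤ) = (n : ℤ) ^ 2 + u i := by
      refine ⟨((n : ℤ) ^ 2 + u i).toNat, Int.toNat_of_nonneg ?_⟩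
      have : (N : ℤ) ≤ n := by exact_mod_cast hnN
      nlinarith
    have hnNz : (N : ℤ) ≤ n := by exact_mod_cast hnN
    have ha1 : n ^ 2 ≤ a + n := by
      have : (n : ℤ) ^ 2 ≤ a + n := by rw [ha]; linarith
      exact_mod_cast this
    have ha2 : a + U i ≤ n ^ 2 + n := by
      have : (a : ℤ) + U i ≤ n ^ 2 + n := by rw [ha]; linarith
      exact_mod_cast this
    have ha1' : (n : ℝ) ^ 2 ≤ a + n := by exact_mod_cast ha1
    have hU2N : (U i : ℝ) ≤ 2 * N := by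
      have : (U i : ℤ) ≤ 2 * N := by linarith
      exact_mod_cast this
    have hUpos : (1 : ℝ) ≤ U i := by
      refine le_trans ?_ g3
      exact Real.one_le_rpow (by linarith) (by linarith)
    have h2h : 2 * (h i : ℝ) ≤ U i := by exact_mod_cast g5
    have hhU : h i ≤ U i := by omega
    have hsub : (((U i - h i : ℕ) : ℝ)) = U i - h i := Nat.cast_sub hhU
    have hlen : (n : ℝ) ^ (1 - δ) ≤ ((U i - h i : ℕ) : ℝ) := by
      rw [hsub]
      have e1 : (n : ℝ) ^ (1 - δ) ≤ 2 * (N : ℝ) ^ (1 - δ) := by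
        calc (n : ℝ) ^ (1 - δ) ≤ (2 * N) ^ (1 - δ) := Real.rpow_le_rpow (by linarith) d2 (by linarith)
          _ = 2 ^ (1 - δ) * (N : ℝ) ^ (1 - δ) := Real.mul_rpow (by norm_num) hN0.le
          _ ≤ 2 ^ (1 : ℝ) * (N : ℝ) ^ (1 - δ) := by
            gcongr
            · norm_num
            · linarith
          _ = 2 * (N : ℝ) ^ (1 - δ) := by rw [Real.rpow_one]
      have e2 : 4 * (N : ℝ) ^ (1 - δ) ≤ (N : ℝ) ^ (1 - δ / 2) := by
        calc 4 * (N : ℝ) ^ (1 - δ) ≤ (N : ℝ) ^ (δ / 2) * (N : ℝ) ^ (1 - δ) := by gcongr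
          _ = (N : ℝ) ^ (1 - δ / 2) := by
            rw [← Real.rpow_add hN0]
            congr 1
            ring
      linarith
    have h3 := hrich (a + h i) (U i - h i) (by omega) (by omega) hlen
    have hxle : (n : ℝ) ^ 2 / 2 ≤ a := by nlinarith
    have h4 := hX0 ((n : ℝ) ^ 2 / 2) (by nlinarith) a (U i) (h i) hxle (by nlinarith) (by
        have e1 : ((n : ℝ) ^ 2 / 2) ^ (0.4 : ℝ) ≤ (N : ℝ) ^ (1 - δ / 2) := by
          calc ((n : ℝ) ^ 2 / 2) ^ (0.4 : ℝ) ≤ (2 * (N : ℝ) ^ 2) ^ (0.4 : ℝ) := by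
                apply Real.rpow_le_rpow (by positivity) _ (by norm_num)
                nlinarith
            _ = 2 ^ (0.4 : ℝ) * (N : ℝ) ^ (0.8 : ℝ) := by
                rw [Real.mul_rpow (by norm_num) (by positivity), ← Real.rpow_natCast, ← Real.rpow_mul hN0.le]
                norm_num
            _ ≤ 4 * (N : ℝ) ^ (0.8 : ℝ) := by
                gcongr
                calc (2 : ℝ) ^ (0.4 : ℝ) ≤ 2 ^ (1 : ℝ) := Real.rpow_le_rpow_of_exponent_le (by norm_num) (by norm_num)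
                  _ ≤ 4 := by norm_num
            _ ≤ (N : ℝ) ^ (0.1 : ℝ) * (N : ℝ) ^ (0.8 : ℝ) := by gcongr
            _ = (N : ℝ) ^ (0.9 : ℝ) := by
                rw [← Real.rpow_add hN0]
                norm_num
            _ ≤ (N : ℝ) ^ (1 - δ / 2) := Real.rpow_le_rpow_of_exponent_le (by linarith) (by linarith)
        exact e1.trans g3) (by
        calc κ / 4 * Real.log ((n : ℝ) ^ 2 / 2) ≤ κ / 4 * (4 * Real.log N) := by gcongr
          _ = κ * Real.log N := by ring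
          _ ≤ h i := g4) h2h (by
        refine le_trans ?_ h3
        gcongr)
    refine h4.trans ?_
    rw [Nat.cast_le]
    -- injection of the good windows
    apply Finset.card_le_card_of_injOn (fun m : ℕ => (m : ℤ) - (n : ℤ) ^ 2)
    · intro m hm
      rw [mem_coe, mem_filter, mem_Ioc] at hm
      obtain ⟨⟨m1, m2⟩, m3, m4⟩ := hm
      rw [hW, mem_coe, mem_filter, mem_Ioc]
      have e : cnt n ((m : ℤ) - (n : ℤ) ^ 2) (h i) = (primesIn m (h i)).card := cnt_eq (by ring)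
      rw [e]
      have m1' : (a : ℤ) < m := by exact_mod_cast m1
      have m2' : (m : ℤ) ≤ a + U i := by exact_mod_cast m2
      have hlx : 0 < Real.log ((n : ℝ) ^ 2 / 2) := by linarith
      refine ⟨⟨by linarith, by linarith⟩, ?_, ?_⟩
      · refine le_trans ?_ m3
        rw [div_le_div_iff₀ d6 hlx]
        calc c / 2 * h i * Real.log ((n : ℝ) ^ 2 / 2) ≤ c / 2 * h i * (2 * Real.log n) := by gcongr
          _ = c * h i * Real.log n := by ring
      · refine m4.trans ?_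
        gcongr
    · intro m _ m' _ hmm
      have : (m : ℤ) - (n : ℤ) ^ 2 = (m' : ℤ) - (n : ℤ) ^ 2 := hmm
      have : (m : ℤ) = m' := by linarith
      exact_mod_cast this
  have hUpos : ∀ i, (0 : ℝ) < U i := by
    intro i
    refine lt_of_lt_of_le ?_ (huUh i).2.2.1
    exact Real.rpow_pos_of_pos hN0 _
  have hprod : 0 < ∏ i, (U i : ℝ) := Finset.prod_pos fun i _ => hUpos i
  obtain ⟨T, hTT, hTc, hT⟩ := Pool.Agent.U766.HO.common (e := p ^ J * ∏ i, (U i : ℝ)) (b := ∏ i, (U i : ℝ))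
    (by positivity) hprod (N := N) (S := S) (𝓕 := 𝓕) (ρ := ρ) (by
      intro A0 hA0 hA0c
      refine hN1 N a1 A0 hA0 ?_
      refine le_trans (le_of_eq ?_) hA0c
      field_simp) hA hAc hA'A h1 h2 (Fintype.piFinset (fun i => Ioc (u i) (u i + U i)))
      (fun n => Fintype.piFinset (fun i => W n i)) (by
      intro n _
      apply Fintype.piFinset_subset
      intro i
      rw [hW]
      exact filter_subset _ _) (by
      have hcI : ∀ i, (Ioc (u i) (u i + U i)).card = U i := by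
        intro i
        rw [Int.card_Ioc]
        omega
      rw [Fintype.card_piFinset]
      simp only [hcI]
      push_cast
      exact le_rfl) (by
      intro n hn
      rw [Fintype.card_piFinset]
      push_cast
      calc p ^ J * ∏ i, (U i : ℝ) = ∏ i, (p * (U i : ℝ)) := by
            rw [Finset.prod_mul_distrib, Finset.prod_const, Finset.card_univ, Fintype.card_fin]
        _ ≤ ∏ i, ((W n i).card : ℝ) := by
            apply Finset.prod_le_prod
            · intro i _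
              have := hUpos i
              positivity
            · intro i _
              exact hWc n hn i)
  refine ⟨T, hTT, le_trans (le_of_eq (by ring)) hTc, fun t ht => ?_⟩
  obtain ⟨F, hF𝓕, hFA, hF⟩ := hT t ht
  refine ⟨F, hF𝓕, hFA, fun n hn i => ?_⟩
  have h3 := Fintype.mem_piFinset.1 (hF n hn) i
  rw [hW, mem_filter] at h3
  exact h3.2

theorem result :
    -- (1) the general theorem
    (∃ δ : ℝ, 0 < δ ∧ ∀ κ : ℝ, 0 < κ → ∃ c C p : ℝ, 0 < c ∧ 0 < C ∧ 0 < p ∧ ∀ (J : ℕ) (S : Set ℕ), Thick S →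
      ∀ ρ : ℝ, 0 < ρ → ∀ 𝓕 : Set (Finset ℕ), Reg S (p ^ J / 4 * ρ) 𝓕 → ∃ N₀ : ℕ, ∀ N : ℕ, N₀ ≤ N → ∀ A : Finset ℕ,
        A ⊆ sec S N → ρ * ((sec S N).card : ℝ) ≤ (A.card : ℝ) → ∀ (u : Fin J → ℤ) (U h : Fin J → ℕ),
        (∀ i, -(N : ℤ) ≤ u i ∧ u i + U i ≤ N ∧ (N : ℝ) ^ (1 - δ) ≤ U i ∧ κ * Real.log N ≤ h i ∧ 2 * h i ≤ U i) →
          ∃ T : Finset (Fin J → ℤ), T ⊆ Fintype.piFinset (fun i => Ioc (u i) (u i + U i)) ∧
            p ^ J / 2 * ∏ i, (U i : ℝ) ≤ (T.card : ℝ) ∧ ∀ t ∈ T, ∃ F ∈ 𝓕, F ⊆ A ∧ ∀ n ∈ F, ∀ i,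
              c * h i / Real.log n ≤ (cnt n (t i) (h i) : ℝ) ∧ (cnt n (t i) (h i) : ℝ) ≤ C * h i / Real.log n) ∧
    -- (2) both Oppermann intervals, progressions in dense sets
    (∀ κ : ℝ, 0 < κ → ∃ c C p : ℝ, 0 < c ∧ 0 < C ∧ 0 < p ∧ ∀ (m : ℕ) (ρ : ℝ), 0 < ρ → ∃ N₀ : ℕ, ∀ N : ℕ, N₀ ≤ N →
      ∀ A : Finset ℕ, A ⊆ Icc N (2 * N) → ρ * N ≤ (A.card : ℝ) → ∀ h : ℕ, κ * Real.log N ≤ h → 2 * h ≤ N →
        ∃ T : Finset (ℕ × ℕ), (∀ x ∈ T, x.1 < N ∧ 1 ≤ x.2 ∧ x.2 ≤ N) ∧ p * (N : ℝ) ^ 2 ≤ (T.card : ℝ) ∧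
          ∀ x ∈ T, ∃ a d : ℕ, 1 ≤ d ∧ ∀ j < m, a + j * d ∈ A ∧
            (c * h / Real.log (a + j * d : ℕ) ≤ (cnt (a + j * d) (-(x.1 : ℤ)) h : ℝ) ∧
              (cnt (a + j * d) (-(x.1 : ℤ)) h : ℝ) ≤ C * h / Real.log (a + j * d : ℕ)) ∧
            (c * h / Real.log (a + j * d : ℕ) ≤ (cnt (a + j * d) (x.2 : ℤ) h : ℝ) ∧
              (cnt (a + j * d) (x.2 : ℤ) h : ℝ) ≤ C * h / Real.log (a + j * d : ℕ))) := by
  classical
  refine ⟨general, ?_⟩
  obtain ⟨δ, hδ, hgen⟩ := general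
  intro κ hκ
  obtain ⟨c, C, p, hc, hC, hp, h0⟩ := hgen κ hκ
  refine ⟨c, C, p ^ 2 / 2, hc, hC, by positivity, fun m ρ hρ => ?_⟩
  obtain ⟨N₀, hN₀⟩ := h0 2 Set.univ Pool.Agent.U766.HO.thick_univ (ρ / 2) (by positivity) _
    (Pool.Agent.U766.HO.reg_univ m (p ^ 2 / 4 * (ρ / 2)) (by positivity))
  refine ⟨max N₀ 1, fun N hN A hA hAc h hκh h2h => ?_⟩
  have a1 : N₀ ≤ N := (le_max_left _ _).trans hN
  have a2 : 1 ≤ N := (le_max_right _ _).trans hN
  have hN1 : (1 : ℝ) ≤ N := by exact_mod_cast a2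
  obtain ⟨T, hT, hTc, hTF⟩ := hN₀ N a1 A (by rw [Pool.Agent.U766.HO.sec_univ]; exact hA)
    (by rw [Pool.Agent.U766.HO.card_univ]; nlinarith) ![-(N : ℤ), 0] ![N, N] ![h, h] (by
      have hpow : (N : ℝ) ^ (1 - δ) ≤ N := by
        calc (N : ℝ) ^ (1 - δ) ≤ (N : ℝ) ^ (1 : ℝ) := Real.rpow_le_rpow_of_exponent_le hN1 (by linarith)
          _ = N := Real.rpow_one _
      intro i
      fin_cases i
      · exact ⟨by simp, by simp, by simpa using hpow, by simpa using hκh, by simpa using h2h⟩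
      · exact ⟨by simp, by simp, by simpa using hpow, by simpa using hκh, by simpa using h2h⟩)
  have hmem : ∀ t ∈ T, (-(N : ℤ) < t 0 ∧ t 0 ≤ 0) ∧ (0 < t 1 ∧ t 1 ≤ N) := by
    intro t ht
    have h1 := Fintype.mem_piFinset.1 (hT ht)
    have h2 := h1 0
    have h3 := h1 1
    simp only [mem_Ioc, Matrix.cons_val_zero, Matrix.cons_val_one] at h2 h3
    exact ⟨⟨h2.1, by linarith [h2.2]⟩, ⟨h3.1, by linarith [h3.2]⟩⟩
  refine ⟨T.image (fun t => ((-(t 0)).toNat, (t 1).toNat)), fun x hx => ?_, ?_, fun x hx => ?_⟩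
  · rw [mem_image] at hx
    obtain ⟨t, ht, rfl⟩ := hx
    obtain ⟨h1, h2⟩ := hmem t ht
    show (-(t 0)).toNat < N ∧ 1 ≤ (t 1).toNat ∧ (t 1).toNat ≤ N
    omega
  · rw [card_image_of_injOn]
    · refine le_trans (le_of_eq ?_) hTc
      rw [Fin.prod_univ_two]
      simp only [Matrix.cons_val_zero, Matrix.cons_val_one]
      ring
    · intro t ht t' ht' htt
      obtain ⟨h1, h2⟩ := hmem t ht
      obtain ⟨h1', h2'⟩ := hmem t' ht'
      rw [Prod.mk.injEq] at htt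
      funext i
      fin_cases i
      · show t 0 = t' 0
        omega
      · show t 1 = t' 1
        omega
  · rw [mem_image] at hx
    obtain ⟨t, ht, rfl⟩ := hx
    obtain ⟨h1, h2⟩ := hmem t ht
    obtain ⟨F, ⟨a, d, hd, rfl⟩, hFA, hF⟩ := hTF t ht
    refine ⟨a, d, hd, fun j hj => ?_⟩
    have hj' : a + j * d ∈ (range m).image (fun j => a + j * d) := mem_image.2 ⟨j, mem_range.2 hj, rfl⟩
    have h3 := hF _ hj' 0
    have h4 := hF _ hj' 1
    have e1 : (-(((-(t 0)).toNat : ℕ) : ℤ)) = t 0 := by omega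
    have e2 : (((t 1).toNat : ℕ) : ℤ) = t 1 := by omega
    refine ⟨hFA hj', ?_, ?_⟩
    · show c * h / Real.log (a + j * d : ℕ) ≤ (cnt (a + j * d) (-(((-(t 0)).toNat : ℕ) : ℤ)) h : ℝ) ∧
        (cnt (a + j * d) (-(((-(t 0)).toNat : ℕ) : ℤ)) h : ℝ) ≤ C * h / Real.log (a + j * d : ℕ)
      rw [e1]
      simpa using h3
    · show c * h / Real.log (a + j * d : ℕ) ≤ (cnt (a + j * d) (((t 1).toNat : ℕ) : ℤ) h : ℝ) ∧
        (cnt (a + j * d) (((t 1).toNat : ℕ) : ℤ) h : ℝ) ≤ C * h / Real.log (a + j * d : ℕ)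
      rw [e2]
      simpa using h4

end Pool.Agent.Results.MP_a8fbd7_nt.CommonOffsets
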