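import Mathlib
import Pool.Agent.U462.Osc.Opp
import Pool.Agent.U462.Gap.Fin

set_option autoImplicit false

/-!
# The counts in the Oppermann intervals in every sequential random model of the primes

`A(n)` and `B(n)` count the primes in `[n² - n, n²]` and `[n², n² + n]`; the question is whether both are asymptotic
to `n / (2 log n)`. A random set `S` is built step by step, with arbitrary dependence; the conditional probability
of `n + 1`, given the first `n` steps, is asymptotic to `∏_{q ≤ T} (1 - 1/q)⁻¹ / log n`, `T = T(n + 1)`, if `n + 1` has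
no prime factor up to `T(n + 1)`, and it is `0` otherwise (Cramér's model: `T = 1`). The nondecreasing function `T` is
smaller than every power of `n`. With `S` in the place of the primes we prove that almost surely
`A(n)` and `B(n)` are asymptotic to `n / (2 log n)`, and we find the exact size of the fluctuations: with the
compensator `C(n)` (the sum of the conditional probabilities over the interval, the expected value in the case of
independence) `limsup (A(n) - C(n)) / √n = 1` and `liminf (A(n) - C(n)) / √n = -1`, and the same for `B(n)`.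

Proof: two sided moderate deviations for the counts of adapted sets, by exponential tilting. For the lower bounds the
density `∏ exp(θ 1_{m ∈ S}) / E(exp(θ 1_{m ∈ S}) | past)` moves the compensated count to the required size, and the
second moment of the martingale of the tilted measure is estimated under the tilted measure; the windows are
successive trials. The masses of the windows come from the fundamental lemma of the sieve.
-/

open MeasureTheory Filter Topology

namespace Pool.Agent.Results.MP_a8fbd7_nt.ExactOscillationInRandomModels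

/-- A sequential model with profile `a`: the set of the `n` with `ω ∈ A n` is adapted to the filtration, and
almost surely the conditional probability of `n + 1`, given the first `n` steps, is asymptotic to
`a (n + 1)` (in particular it is `0` for large `n` if `a (n + 1) = 0`). -/
structure IsModel {Ω : Type} {m0 : MeasurableSpace Ω} (μ : Measure Ω) (ℱ : Filtration ℕ m0)
    (A : ℕ → Set Ω) (a : ℕ → ℝ) : Prop where
  adapted : ∀ n, MeasurableSet[ℱ n] (A n)
  law : ∀ᵐ ω ∂μ, ∀ ε : ℝ, 0 < ε → ∀ᶠ n : ℕ in atTop,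
    |(μ[(A (n + 1)).indicator (fun _ => (1 : ℝ)) | ℱ n]) ω - a (n + 1)| ≤ ε * a (n + 1)

open Classical in
/-- the profile of the model with sieve limit `T`: `∏_{p ≤ T(n)} (1 - 1/p)⁻¹ / log n` if `n` has no prime
factor `p ≤ T(n)`, and `0` otherwise -/
noncomputable def sieveProfile (T : ℕ → ℕ) (n : ℕ) : ℝ :=
  (if ∀ p, p.Prime → p ≤ T n → ¬ p ∣ n then
    ∏ p ∈ (Finset.Icc 1 (T n)).filter Nat.Prime, (1 - 1 / (p : ℝ))⁻¹ else 0) / Real.log n

/-- the number of elements of `S` in `[u, v]` -/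
noncomputable def count (S : Set ℕ) (u v : ℕ) : ℝ := ({m : ℕ | m ∈ S ∧ u ≤ m ∧ m ≤ v}.ncard : ℝ)

/-- the compensator: the sum over `u ≤ m ≤ v` of the conditional probabilities of `m`, given the steps before `m` -/
noncomputable def comp {Ω : Type} {m0 : MeasurableSpace Ω} (μ : Measure Ω) (ℱ : Filtration ℕ m0) (A : ℕ → Set Ω)
    (u v : ℕ) (ω : Ω) : ℝ := ∑ m ∈ Finset.Icc u v, (μ[(A m).indicator (fun _ => (1 : ℝ)) | ℱ (m - 1)]) ω

/-- `limsup x(n) / √n = 1` and `liminf x(n) / √n = -1` -/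
def Oscillates (x : ℕ → ℝ) : Prop := ∀ ε : ℝ, 0 < ε → (∀ᶠ n : ℕ in atTop, |x n| ≤ (1 + ε) * √n) ∧
  (∃ᶠ n : ℕ in atTop, (1 - ε) * √n ≤ x n) ∧ (∃ᶠ n : ℕ in atTop, x n ≤ -((1 - ε) * √n))

section aux

variable {Ω : Type} {m0 : MeasurableSpace Ω} {μ : Measure Ω} {ℱ : Filtration ℕ m0} {A : ℕ → Set Ω}

theorem toModel {a : ℕ → ℝ} (h : IsModel μ ℱ A a) : Pool.Agent.U462.Gap.Model μ ℱ A a :=
  ⟨h.adapted, h.law⟩

theorem sum_shift (f : ℕ → ℝ) (t j : ℕ) : ∑ i ∈ Finset.range j, f (t + i + 1) = ∑ m ∈ Finset.Icc (t + 1) (t + j), f m := by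
  induction j with
  | zero => simp
  | succ j ih => rw [Finset.sum_range_succ, ih, ← add_assoc, Finset.sum_Icc_succ_top (by omega)]

theorem cnt_eq (t j : ℕ) (ω : Ω) : Pool.Agent.U462.Osc.cnt A t j ω = count {n | ω ∈ A n} (t + 1) (t + j) := by
  classical
  unfold Pool.Agent.U462.Osc.cnt count
  rw [sum_shift (fun m => Pool.Agent.U462.Mul.Ix A m ω)]
  have h1 : {m : ℕ | m ∈ {n | ω ∈ A n} ∧ t + 1 ≤ m ∧ m ≤ t + j} =
      (((Finset.Icc (t + 1) (t + j)).filter (fun m => ω ∈ A m) : Finset ℕ) : Set ℕ) := by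
    ext m
    simp only [Set.mem_ofPred_eq, Finset.coe_filter, Finset.mem_Icc]
    tauto
  rw [h1, Set.ncard_coe_finset, Finset.card_filter]
  push_cast
  apply Finset.sum_congr rfl
  intro m _
  by_cases h : ω ∈ A m
  · rw [Pool.Agent.U462.Mul.Ix_of_mem h, if_pos h]
  · rw [Pool.Agent.U462.Mul.Ix_of_notMem h, if_neg h]

theorem cmp_eq (t j : ℕ) (ω : Ω) : Pool.Agent.U462.Osc.cmp μ ℱ A t j ω = comp μ ℱ A (t + 1) (t + j) ω := by
  unfold Pool.Agent.U462.Osc.cmp comp
  have h := sum_shift (fun m => (μ[(A m).indicator (fun _ => (1 : ℝ)) | ℱ (m - 1)]) ω) t j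
  rw [← h]
  rfl

end aux

/-- **(1)** Let `T` be nondecreasing and smaller than every power of `n`. In every model with the profile
`sieveProfile T`, almost surely, `A(n)` and `B(n)` are asymptotic to `n / (2 log n)`, and the differences
`A(n) - C_A(n)` and `B(n) - C_B(n)` with the compensators have `limsup = 1` and `liminf = -1` after division by `√n`.
**(2)** Independent events with probabilities asymptotic to `a n` form a model with the profile `a`, and then,
almost surely, all compensators are the expected values. -/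
theorem result :
    (∀ (Ω : Type) (m0 : MeasurableSpace Ω) (μ : Measure Ω) (_ : IsProbabilityMeasure μ)
      (ℱ : Filtration ℕ m0) (A : ℕ → Set Ω) (T : ℕ → ℕ), Monotone T →
      (∀ δ : ℝ, 0 < δ → ∀ᶠ n : ℕ in atTop, (T n : ℝ) ≤ (n : ℝ) ^ δ) → IsModel μ ℱ A (sieveProfile T) →
      ∀ᵐ ω ∂μ,
        Tendsto (fun n : ℕ => count {m | ω ∈ A m} (n ^ 2 - n) (n ^ 2) / ((n : ℝ) / (2 * Real.log n))) atTop (𝓝 1) ∧
        Tendsto (fun n : ℕ => count {m | ω ∈ A m} (n ^ 2) (n ^ 2 + n) / ((n : ℝ) / (2 * Real.log n))) atTop (𝓝 1) ∧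
        Oscillates (fun n : ℕ => count {m | ω ∈ A m} (n ^ 2 - n) (n ^ 2) - comp μ ℱ A (n ^ 2 - n) (n ^ 2) ω) ∧
        Oscillates (fun n : ℕ => count {m | ω ∈ A m} (n ^ 2) (n ^ 2 + n) - comp μ ℱ A (n ^ 2) (n ^ 2 + n) ω)) ∧
    (∀ (Ω : Type) (m0 : MeasurableSpace Ω) (μ : Measure Ω) (_ : IsProbabilityMeasure μ)
      (A : ℕ → Set Ω) (hm : ∀ n, MeasurableSet (A n)) (a : ℕ → ℝ), ProbabilityTheory.iIndepSet A μ →
      (∀ ε : ℝ, 0 < ε → ∀ᶠ n : ℕ in atTop, |μ.real (A n) - a n| ≤ ε * a n) →
      IsModel μ (filtrationOfSet hm) A a ∧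
      ∀ᵐ ω ∂μ, ∀ u v : ℕ, 1 ≤ u → comp μ (filtrationOfSet hm) A u v ω = ∑ m ∈ Finset.Icc u v, μ.real (A m)) := by
  constructor
  · intro Ω m0 μ _ ℱ A T hT hTs hA
    have hM : Pool.Agent.U462.Gap.Model μ ℱ A (Pool.Agent.U462.Gap.aT T) := toModel hA
    have HA := Pool.Agent.U462.Osc.opp_seq hM hT hTs (t := fun n => n ^ 2 - n - 1) (by
      filter_upwards [eventually_ge_atTop 4] with n hn
      have h1 : n * 4 ≤ n ^ 2 := by nlinarith
      omega) (monotone_nat_of_le_succ fun n => by
        have h1 : (n + 1) ^ 2 = n ^ 2 + 2 * n + 1 := by ring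
        omega) (by
      filter_upwards [eventually_ge_atTop 2] with n hn
      have h1 : (n + 1) ^ 2 = n ^ 2 + 2 * n + 1 := by ring
      have h2 : n * 2 ≤ n ^ 2 := by nlinarith
      omega)
    have HB := Pool.Agent.U462.Osc.opp_seq hM hT hTs (t := fun n => n ^ 2 - 1) (by
      filter_upwards [eventually_ge_atTop 4] with n hn
      have h1 : n * 4 ≤ n ^ 2 := by nlinarith
      omega) (monotone_nat_of_le_succ fun n => by
        have h1 : (n + 1) ^ 2 = n ^ 2 + 2 * n + 1 := by ring
        omega) (by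
      filter_upwards [eventually_ge_atTop 2] with n hn
      have h1 : (n + 1) ^ 2 = n ^ 2 + 2 * n + 1 := by ring
      have h2 : n * 2 ≤ n ^ 2 := by nlinarith
      omega)
    filter_upwards [HA, HB] with ω hA1 hB1
    have eA : ∀ n : ℕ, 2 ≤ n → n ^ 2 - n - 1 + 1 = n ^ 2 - n ∧ n ^ 2 - n - 1 + (n + 1) = n ^ 2 := by
      intro n hn
      have h2 : n * 2 ≤ n ^ 2 := by nlinarith
      omega
    have eB : ∀ n : ℕ, 2 ≤ n → n ^ 2 - 1 + 1 = n ^ 2 ∧ n ^ 2 - 1 + (n + 1) = n ^ 2 + n := by
      intro n hn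
      have h2 : n * 2 ≤ n ^ 2 := by nlinarith
      omega
    have cA : ∀ n : ℕ, 2 ≤ n → Pool.Agent.U462.Osc.cnt A (n ^ 2 - n - 1) (n + 1) ω =
        count {m | ω ∈ A m} (n ^ 2 - n) (n ^ 2) ∧ Pool.Agent.U462.Osc.cmp μ ℱ A (n ^ 2 - n - 1) (n + 1) ω =
        comp μ ℱ A (n ^ 2 - n) (n ^ 2) ω := by
      intro n hn
      obtain ⟨g1, g2⟩ := eA n hn
      rw [cnt_eq, cmp_eq, g1, g2]
      exact ⟨rfl, rfl⟩
    have cB : ∀ n : ℕ, 2 ≤ n → Pool.Agent.U462.Osc.cnt A (n ^ 2 - 1) (n + 1) ω =
        count {m | ω ∈ A m} (n ^ 2) (n ^ 2 + n) ∧ Pool.Agent.U462.Osc.cmp μ ℱ A (n ^ 2 - 1) (n + 1) ω =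
        comp μ ℱ A (n ^ 2) (n ^ 2 + n) ω := by
      intro n hn
      obtain ⟨g1, g2⟩ := eB n hn
      rw [cnt_eq, cmp_eq, g1, g2]
      exact ⟨rfl, rfl⟩
    refine ⟨?_, ?_, ?_, ?_⟩
    · refine hA1.1.congr' ?_
      filter_upwards [eventually_ge_atTop 2] with n hn
      rw [(cA n hn).1]
    · refine hB1.1.congr' ?_
      filter_upwards [eventually_ge_atTop 2] with n hn
      rw [(cB n hn).1]
    · intro ε hε
      obtain ⟨h1, h2, h3⟩ := hA1.2 ε hε
      refine ⟨?_, ?_, ?_⟩
      · filter_upwards [h1, eventually_ge_atTop 2] with n g1 g2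
        rwa [(cA n g2).1, (cA n g2).2] at g1
      · refine (h2.and_eventually (eventually_ge_atTop 2)).mono fun n hn => ?_
        have g1 := hn.1
        rwa [(cA n hn.2).1, (cA n hn.2).2] at g1
      · refine (h3.and_eventually (eventually_ge_atTop 2)).mono fun n hn => ?_
        have g1 := hn.1
        rwa [(cA n hn.2).1, (cA n hn.2).2] at g1
    · intro ε hε
      obtain ⟨h1, h2, h3⟩ := hB1.2 ε hε
      refine ⟨?_, ?_, ?_⟩
      · filter_upwards [h1, eventually_ge_atTop 2] with n g1 g2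
        rwa [(cB n g2).1, (cB n g2).2] at g1
      · refine (h2.and_eventually (eventually_ge_atTop 2)).mono fun n hn => ?_
        have g1 := hn.1
        rwa [(cB n hn.2).1, (cB n hn.2).2] at g1
      · refine (h3.and_eventually (eventually_ge_atTop 2)).mono fun n hn => ?_
        have g1 := hn.1
        rwa [(cB n hn.2).1, (cB n hn.2).2] at g1
  · intro Ω m0 μ _ A hm a hi hp
    have h := Pool.Agent.U462.Gap.indep_model hm hi hp
    refine ⟨⟨h.adapted, h.law⟩, ?_⟩
    have h0 : ∀ᵐ ω ∂μ, ∀ n : ℕ, (μ[(A (n + 1)).indicator (fun _ => (1 : ℝ)) | filtrationOfSet hm n]) ω =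
        μ.real (A (n + 1)) := by
      rw [ae_all_iff]
      intro n
      exact hi.condExp_indicator_filtrationOfSet_ae_eq hm n.lt_succ_self
    filter_upwards [h0] with ω hω u v hu
    unfold comp
    apply Finset.sum_congr rfl
    intro m hm1
    rw [Finset.mem_Icc] at hm1
    obtain ⟨k, rfl⟩ : ∃ k, m = k + 1 := ⟨m - 1, by omega⟩
    exact hω k

end Pool.Agent.Results.MP_a8fbd7_nt.ExactOscillationInRandomModels
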